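import Pool.Agent.H32.RK.TargetsA
import Pool.Agent.H32.RK.TargetsB

/-!
# The denominators
-/

set_option autoImplicit false

namespace Pool.Agent.H7.RK

open Finset NumberField Pool.Agent.H32.RQ Pool.Agent.H32.RK

theorem ind_sum {K : Type} [Field K] [NumberField K] (hDUA : T_DUA K) {ι : Type} (s : Finset ι)
    (f : ι → K) (h : ∀ i ∈ s, InD (f i)) : InD (∑ i ∈ s, f i) := by
  classical
  induction s using Finset.induction_on with
  | empty =>
    have := hDUA.2.2.2.1 0
    simpa using this
  | insert a s ha ih =>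
    rw [Finset.sum_insert ha]
    exact hDUA.1 _ _ (h a (Finset.mem_insert_self _ _))
      (ih fun i hi => h i (Finset.mem_insert_of_mem hi))

/-- one half -/
theorem half {K : Type} [Field K] [NumberField K] (hDUA : T_DUA K) {s : ℕ} {x y : Fin s → 𝓞 K}
    {α β : K} {g : 𝓞 K} (hy : Prm y)
    (h : ∀ i l, InD (α * x i * x l + β * y i * y l)) {a : Fin s → 𝓞 K}
    (ha : ∑ j, a j * x j = 0) (ha' : ∑ j, a j * y j = g) : InD (β * (g : 𝓞 K)) := by
  obtain ⟨b, hb⟩ := hy
  have h1 : InD (∑ i, ∑ l, ((b i * a l : 𝓞 K) : K) * (α * x i * x l + β * y i * y l)) := by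
    apply ind_sum hDUA
    intro i _
    apply ind_sum hDUA
    intro l _
    exact hDUA.2.2.1 _ _ (h i l)
  have ha0 : ∑ j, (a j : K) * (x j : K) = 0 := by
    have := congrArg (fun z : 𝓞 K => (z : K)) ha
    simpa using this
  have ha1 : ∑ j, (a j : K) * (y j : K) = (g : K) := by
    have := congrArg (fun z : 𝓞 K => (z : K)) ha'
    simpa using this
  have hb1 : ∑ j, (b j : K) * (y j : K) = 1 := by
    have := congrArg (fun z : 𝓞 K => (z : K)) hb
    simpa using this
  have h2 : ∀ i, ∑ l, ((b i * a l : 𝓞 K) : K) * (α * x i * x l + β * y i * y l) =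
      (b i : K) * y i * (β * g) := by
    intro i
    have h3 : ∀ l, ((b i * a l : 𝓞 K) : K) * (α * x i * x l + β * y i * y l) =
        (b i : K) * α * x i * (a l * x l) + (b i : K) * y i * β * (a l * y l) := by
      intro l
      push_cast
      ring
    simp only [h3]
    rw [Finset.sum_add_distrib, ← Finset.mul_sum, ← Finset.mul_sum, ha0, ha1]
    ring
  simp only [h2] at h1
  rw [← Finset.sum_mul, hb1, one_mul] at h1
  exact h1

/-- the vectors orthogonal to one of the vectors -/
theorem ort {R : Type} [CommRing R] {s : ℕ} (x y : Fin s → R) (c : Fin s × Fin s → R) :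
    ∑ j, (∑ i, (c (i, j) - c (j, i)) * x i) * x j = 0 ∧
      ∑ j, (∑ i, (c (i, j) - c (j, i)) * x i) * y j = ∑ i, ∑ j, c (i, j) * mnr x y i j := by
  have h0 : ∀ z : Fin s → R, ∑ j, (∑ i, (c (i, j) - c (j, i)) * x i) * z j =
      ∑ i, ∑ j, (c (i, j) * (x i * z j) - c (i, j) * (x j * z i)) := by
    intro z
    have h1 : ∑ j, (∑ i, (c (i, j) - c (j, i)) * x i) * z j =
        ∑ j, ∑ i, c (i, j) * (x i * z j) - ∑ j, ∑ i, c (j, i) * (x i * z j) := by
      rw [← Finset.sum_sub_distrib]
      apply Finset.sum_congr rfl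
      intro j _
      rw [← Finset.sum_sub_distrib, Finset.sum_mul]
      apply Finset.sum_congr rfl
      intro i _
      ring
    rw [h1, Finset.sum_comm (f := fun j i => c (i, j) * (x i * z j)), ← Finset.sum_sub_distrib]
    apply Finset.sum_congr rfl
    intro i _
    rw [← Finset.sum_sub_distrib]
  constructor
  · rw [h0]
    apply Finset.sum_eq_zero
    intro i _
    apply Finset.sum_eq_zero
    intro j _
    ring
  · rw [h0]
    apply Finset.sum_congr rfl
    intro i _
    apply Finset.sum_congr rfl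
    intro j _
    unfold mnr
    ring

theorem pf_CLS (K : Type) [Field K] [NumberField K] (hDUA : T_DUA K) : T_CLS K := by
  intro s x y α β hx hy h g hg
  obtain ⟨c, hc⟩ := Ideal.mem_span_range_iff_exists_fun.1 hg
  rw [Fintype.sum_prod_type] at hc
  simp only at hc
  constructor
  · obtain ⟨h1, h2⟩ := ort y x (fun p => c (p.2, p.1))
    refine half hDUA (x := y) (y := x) (α := β) (β := α) (g := g) hx ?_ h1 ?_
    · intro i l
      have := h i l
      rwa [add_comm] at this
    · rw [h2, ← hc, Finset.sum_comm]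
      apply Finset.sum_congr rfl
      intro i _
      apply Finset.sum_congr rfl
      intro j _
      unfold mnr
      ring
  · obtain ⟨h1, h2⟩ := ort x y c
    refine half hDUA (x := x) (y := y) (α := α) (β := β) (g := g) hy h h1 ?_
    rw [h2, ← hc]

end Pool.Agent.H7.RK
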