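import Pool.Agent.H32.RK.TargetsB

/-!
# Row SPN: the orthogonal module is generated, up to finite index, by small vectors
-/

set_option autoImplicit false

open Finset NumberField Pool.Agent.H32.RQ Pool.Agent.H32.RK

namespace Pool.Agent.H7.RK

section ext

variable {R : Type} [CommRing R] {s : ℕ} (i j k : Fin s)

/-- extension by zero of a vector with three coordinates -/
def xt (l : Fin 3 → R) : Fin s → R := Pi.single i (l 0) + Pi.single j (l 1) + Pi.single k (l 2)

variable {i j k}

theorem xt_i (hij : i ≠ j) (hik : i ≠ k) (l : Fin 3 → R) : xt i j k l i = l 0 := by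
  unfold xt
  rw [Pi.add_apply, Pi.add_apply, Pi.single_eq_same, Pi.single_eq_of_ne hij,
    Pi.single_eq_of_ne hik]
  ring

theorem xt_j (hij : i ≠ j) (hjk : j ≠ k) (l : Fin 3 → R) : xt i j k l j = l 1 := by
  unfold xt
  rw [Pi.add_apply, Pi.add_apply, Pi.single_eq_same, Pi.single_eq_of_ne hij.symm,
    Pi.single_eq_of_ne hjk]
  ring

theorem xt_k (hik : i ≠ k) (hjk : j ≠ k) (l : Fin 3 → R) : xt i j k l k = l 2 := by
  unfold xt
  rw [Pi.add_apply, Pi.add_apply, Pi.single_eq_same, Pi.single_eq_of_ne hik.symm,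
    Pi.single_eq_of_ne hjk.symm]
  ring

theorem xt_o {b : Fin s} (h1 : b ≠ i) (h2 : b ≠ j) (h3 : b ≠ k) (l : Fin 3 → R) :
    xt i j k l b = 0 := by
  unfold xt
  rw [Pi.add_apply, Pi.add_apply, Pi.single_eq_of_ne h1, Pi.single_eq_of_ne h2,
    Pi.single_eq_of_ne h3]
  ring

theorem xt_all (hij : i ≠ j) (hik : i ≠ k) (hjk : j ≠ k) (l : Fin 3 → R) (P : R → Prop)
    (h0 : P 0) (hl : ∀ a, P (l a)) (b : Fin s) : P (xt i j k l b) := by
  by_cases h1 : b = i
  · rw [h1, xt_i hij hik]; exact hl 0
  by_cases h2 : b = j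
  · rw [h2, xt_j hij hjk]; exact hl 1
  by_cases h3 : b = k
  · rw [h3, xt_k hik hjk]; exact hl 2
  rw [xt_o h1 h2 h3]
  exact h0

theorem single_sum (x : Fin s → R) (b : Fin s) (a : R) :
    ∑ c, (Pi.single b a : Fin s → R) c * x c = a * x b := by
  rw [Finset.sum_eq_single b]
  · rw [Pi.single_eq_same]
  · intro c _ hc
    rw [Pi.single_eq_of_ne hc, zero_mul]
  · intro h
    exact absurd (Finset.mem_univ b) h

theorem xt_sum (x : Fin s → R) (l : Fin 3 → R) :
    ∑ b, xt i j k l b * x b = l 0 * x i + l 1 * x j + l 2 * x k := by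
  unfold xt
  simp only [Pi.add_apply, add_mul, Finset.sum_add_distrib]
  rw [single_sum, single_sum, single_sum]

end ext

theorem xt_S3 {K : Type} [Field K] [NumberField K] {s : ℕ} {i j k : Fin s} (l : Fin 3 → 𝓞 K) :
    S3 (xt i j k l) := by
  refine ⟨![i, j, k], fun b hb => ?_⟩
  have h0 := hb 0
  have h1 := hb 1
  have h2 := hb 2
  exact xt_o (Ne.symm h0) (Ne.symm h1) (Ne.symm h2) l

theorem pf_SPN (K : Type) [Field K] [NumberField K] (hPIG : T_PIG K) : T_SPN K := by
  classical
  obtain ⟨C, hC, hP⟩ := hPIG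
  refine ⟨C, hC, ?_⟩
  intro s B R x hs hR hx hsup φ hφ i j
  by_cases hij : i = j
  · rw [hij, sub_self, map_zero]
  obtain ⟨k, hki, hkj⟩ : ∃ k : Fin s, k ≠ i ∧ k ≠ j := by
    by_contra hcon
    push Not at hcon
    have h1 : (Finset.univ : Finset (Fin s)) ⊆ {i, j} := by
      intro b _
      rw [Finset.mem_insert, Finset.mem_singleton]
      by_cases hb : b = i
      · exact Or.inl hb
      · exact Or.inr (hcon b hb)
    have h2 := (Finset.card_le_card h1).trans Finset.card_le_two
    rw [Finset.card_univ, Fintype.card_fin] at h2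
    omega
  have hik : i ≠ k := hki.symm
  have hjk : j ≠ k := hkj.symm
  have hR0 : (0 : ℝ) ≤ R := by linarith
  have hw0 : ∀ w : InfinitePlace K, w (((0 : 𝓞 K) : K)) = 0 := by
    intro w
    simp
  -- `x k` does not vanish
  have hxk : x k ≠ 0 := by
    intro h0
    have h1 := hsup (Pi.single k 1) (by
      refine ⟨fun _ => k, fun b hb => ?_⟩
      exact Pi.single_eq_of_ne (Ne.symm (hb 0)) _) (fun b w => by
      by_cases hb : b = k
      · rw [hb, Pi.single_eq_same]
        simpa using hR
      · rw [Pi.single_eq_of_ne hb, hw0]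
        exact hR0) (by rw [single_sum, h0, mul_zero])
    have h2 := congrFun h1 k
    rw [Pi.single_eq_same] at h2
    exact one_ne_zero h2
  obtain ⟨l, l', hb, hb', hl, hl', a, b, hab⟩ := hP B R ![x i, x j, x k] hR (by
    intro a w
    fin_cases a
    · exact hx i w
    · exact hx j w
    · exact hx k w) (by
    intro l hlR hlx
    have h1 := hsup (xt i j k l) (xt_S3 l)
      (xt_all hij hik hjk l (fun z => ∀ w : InfinitePlace K, w (z : K) ≤ R)
        (fun w => by rw [hw0]; exact hR0) hlR) (by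
        rw [xt_sum, ← hlx, Fin.sum_univ_three]
        rfl)
    funext a
    fin_cases a
    · have := congrFun h1 i
      rw [xt_i hij hik] at this
      exact this
    · have := congrFun h1 j
      rw [xt_j hij hjk] at this
      exact this
    · have := congrFun h1 k
      rw [xt_k hik hjk] at this
      exact this)
  rw [Fin.sum_univ_three] at hl hl'
  replace hl : l 0 * x i + l 1 * x j + l 2 * x k = 0 := hl
  replace hl' : l' 0 * x i + l' 1 * x j + l' 2 * x k = 0 := hl'
  have hCB : 0 ≤ C * B / R := by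
    obtain ⟨w⟩ : Nonempty (InfinitePlace K) := inferInstance
    exact (apply_nonneg w _).trans (hb 0 w)
  have f1 : φ (xt i j k l) = 0 := hφ _ (xt_S3 l)
    (xt_all hij hik hjk l (fun z => ∀ w : InfinitePlace K, w (z : K) ≤ C * B / R)
      (fun w => by rw [hw0]; exact hCB) hb) (by rw [xt_sum]; exact hl)
  have f2 : φ (xt i j k l') = 0 := hφ _ (xt_S3 l')
    (xt_all hij hik hjk l' (fun z => ∀ w : InfinitePlace K, w (z : K) ≤ C * B / R)
      (fun w => by rw [hw0]; exact hCB) hb') (by rw [xt_sum]; exact hl')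
  have m0 : x k * (l 2 * l' 0 - l' 2 * l 0) = (l 0 * l' 1 - l 1 * l' 0) * x j := by
    linear_combination l' 0 * hl - l 0 * hl'
  have m1 : x k * (l 2 * l' 1 - l' 2 * l 1) = -((l 0 * l' 1 - l 1 * l' 0) * x i) := by
    linear_combination l' 1 * hl - l 1 * hl'
  have hD : l 0 * l' 1 - l 1 * l' 0 ≠ 0 := by
    intro hD
    rw [hD, zero_mul] at m0 m1
    rw [neg_zero] at m1
    have n0 := (mul_eq_zero.1 m0).resolve_left hxk
    have n1 := (mul_eq_zero.1 m1).resolve_left hxk
    apply hab
    unfold mnr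
    fin_cases a <;> fin_cases b <;> simp only [Fin.zero_eta, Fin.mk_one, Fin.reduceFinMk]
    · ring
    · linear_combination hD
    · linear_combination -n0
    · linear_combination -hD
    · ring
    · linear_combination -n1
    · linear_combination n0
    · linear_combination n1
    · ring
  have key : (l 0 * l' 1 - l 1 * l' 0) • (Pi.single j (x i) - Pi.single i (x j) : Fin s → 𝓞 K) =
      (-x k) • (l 2 • xt i j k l' - l' 2 • xt i j k l) := by
    funext b
    simp only [Pi.smul_apply, Pi.sub_apply, smul_eq_mul]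
    by_cases h1 : b = i
    · rw [h1, xt_i hij hik, xt_i hij hik, Pi.single_eq_same, Pi.single_eq_of_ne hij]
      linear_combination m0
    by_cases h2 : b = j
    · rw [h2, xt_j hij hjk, xt_j hij hjk, Pi.single_eq_same, Pi.single_eq_of_ne (Ne.symm hij)]
      linear_combination m1
    by_cases h3 : b = k
    · rw [h3, xt_k hik hjk, xt_k hik hjk, Pi.single_eq_of_ne hki, Pi.single_eq_of_ne hkj]
      ring
    rw [xt_o h1 h2 h3, xt_o h1 h2 h3, Pi.single_eq_of_ne h1, Pi.single_eq_of_ne h2]
    ring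
  have h1 := congrArg φ key
  rw [map_smul, map_smul, map_sub φ (l 2 • xt i j k l'), map_smul, map_smul, f1, f2, smul_zero,
    smul_zero, sub_zero, smul_zero] at h1
  have h2 : ((l 0 * l' 1 - l 1 * l' 0 : 𝓞 K) : K) *
      φ (Pi.single j (x i) - Pi.single i (x j)) = 0 := by
    rw [← h1, Algebra.smul_def]
  refine (mul_eq_zero.1 h2).resolve_left ?_
  intro h3
  exact hD (RingOfIntegers.ext (by rw [h3]; simp))

end Pool.Agent.H7.RK
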